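import Pool.Agent.H717.NL.All
import Pool.Agent.H717.NL.Prog
import Pool.Agent.H195.NL.Neg
import Pool.Agent.H404.NL.Eig

set_option autoImplicit false

/-!
# MP_26b317_lc, Q2: a near-linear deterministic algorithm

For every `n ≥ 2` and `0 < η ≤ 1` there is an algebraic computation tree over the reals (constant `1`,
operations `+, -, *, /`, tests `0 ≤ x`) of cost `O(n log(n/η)^8)` which on input a Hermitian
tridiagonal `n × n` matrix `A` and `δ > 0` with `η ‖A‖ ≤ δ` (for instance `‖A‖ ≤ 1` and `δ ≥ η`)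
outputs a real diagonal matrix `E` with `‖E‖ ≤ 1` and `gap (A + δE) ≥ C δ / n^11`.
-/

namespace Pool.Agent.Results.MP_26b317_lc.NearLinear

open Pool.Agent.H717.NL
open scoped Matrix.Norms.L2Operator

/-- The initial contents of the registers: register `0` holds `δ`; register `j + 1` holds the diagonal
entry `A_{j,j}`, registers `n + j + 1` and `2n + j + 1` hold the real and the imaginary part of
`A_{j,j+1}` (zero for the last `j`), `j = 0, ..., n - 1`. -/
noncomputable def input {n : ℕ} (A : Matrix (Fin n) (Fin n) ℂ) (δ : ℝ) (r : ℕ) : ℝ :=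
  if r = 0 then δ
  else if r ≤ n then (entry A (r - 1) (r - 1)).re
  else if r ≤ 2 * n then (entry A (r - n - 1) (r - n)).re
  else (entry A (r - 2 * n - 1) (r - 2 * n)).im

theorem allHyps : Hyps :=
  hyps (Pool.Agent.H195.NL.t_neg Pool.Agent.H746.NL.t_dftcost) Pool.Agent.H404.NL.t_eig

theorem prog_of_cmp {n c : ℕ} (hn : 0 < n) (G : Inp n → (Fin n → ℝ)) (hG : Cmp G c) :
    ∃ P : Prog, P.cost ≤ c ∧
      ∀ (A : Matrix (Fin n) (Fin n) ℂ) (δ : ℝ) (j : Fin n),
        P.run (3 * n + 1) (input A δ) j = G (inp A δ) j := by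
  obtain ⟨T, h1, h2⟩ := hG
  let e : Vec.idx (Inp n) → ℕ := Sum.elim (fun _ => 0) (Sum.elim (fun p => (p.1 : ℕ) + 1)
    (Sum.elim (fun p => n + (p.1 : ℕ) + 1) (fun p => 2 * n + (p.1 : ℕ) + 1)))
  let q : ℕ → Vec.idx (Fin n → ℝ) := fun j => if h : j < n then ((⟨j, h⟩ : Fin n), ())
    else ((⟨0, hn⟩ : Fin n), ())
  refine ⟨T.toProg q (3 * n + 1) e, by rw [Tree.cost_toProg]; exact h1, fun A δ j => ?_⟩
  have he : ∀ i, e i < 3 * n + 1 := by
    intro i
    rcases i with i | i | i | i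
    · show 0 < _
      omega
    · show (i.1 : ℕ) + 1 < _
      have := i.1.2
      omega
    · show n + (i.1 : ℕ) + 1 < _
      have := i.1.2
      omega
    · show 2 * n + (i.1 : ℕ) + 1 < _
      have := i.1.2
      omega
  have hx : ∀ i, input A δ (e i) = Vec.enc (inp A δ) i := by
    intro i
    rcases i with i | i | i | i
    · rfl
    · show input A δ ((i.1 : ℕ) + 1) = (entry A i.1 i.1).re
      have := i.1.2
      unfold input
      rw [if_neg (by omega), if_pos (by omega), Nat.add_sub_cancel]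
    · show input A δ (n + (i.1 : ℕ) + 1) = (entry A i.1 (i.1 + 1)).re
      have := i.1.2
      unfold input
      rw [if_neg (by omega), if_neg (by omega), if_pos (by omega)]
      congr 3 <;> omega
    · show input A δ (2 * n + (i.1 : ℕ) + 1) = (entry A i.1 (i.1 + 1)).im
      have := i.1.2
      unfold input
      rw [if_neg (by omega), if_neg (by omega), if_neg (by omega)]
      congr 3 <;> omega
  rw [Tree.run_toProg q T (3 * n + 1) e (input A δ) (Vec.enc (inp A δ)) he hx j, h2 (inp A δ)]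
  have hq : q j = (j, ()) := by
    show (if h : (j : ℕ) < n then ((⟨j, h⟩ : Fin n), ()) else ((⟨0, hn⟩ : Fin n), ())) = (j, ())
    rw [dif_pos j.2]
  rw [hq]
  rfl

theorem result :
    ∃ C K : ℝ, 0 < C ∧ 0 < K ∧
      ∀ (n : ℕ) (η : ℝ), 2 ≤ n → 0 < η → η ≤ 1 →
        ∃ P : Prog, (P.cost : ℝ) ≤ K * n * Real.log (n / η) ^ 8 ∧
          ∀ (A : Matrix (Fin n) (Fin n) ℂ) (δ : ℝ), A.IsHermitian → IsTridiagonal A →
            0 < δ → η * ‖A‖ ≤ δ →
            ‖Matrix.diagonal (fun j : Fin n => ((P.run (3 * n + 1) (input A δ) j : ℝ) : ℂ))‖ ≤ 1 ∧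
            C * δ / (n : ℝ) ^ 11
              ≤ gap (A + (δ : ℂ) • Matrix.diagonal
                  (fun j : Fin n => ((P.run (3 * n + 1) (input A δ) j : ℝ) : ℂ))) ∧
            (δ ≤ 1 → C * (δ / n) ^ 11
              ≤ gap (A + (δ : ℂ) • Matrix.diagonal
                  (fun j : Fin n => ((P.run (3 * n + 1) (input A δ) j : ℝ) : ℂ)))) := by
  obtain ⟨K, hK⟩ := main allHyps
  refine ⟨1 / 40000000000, 5 ^ 8 * (K + 1), by norm_num, by positivity, ?_⟩
  intro n η hn hη0 hη1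
  obtain ⟨G, hG1, hG2⟩ := hK n ⌈Real.logb 2 (1 / η)⌉₊ hn
  obtain ⟨T, hT1, hT2⟩ := prog_of_cmp (by omega) G hG1
  have hn' : (2 : ℝ) ≤ n := by exact_mod_cast hn
  have hn0 : (0 : ℝ) < n := by linarith
  have hlogb0 : 0 ≤ Real.logb 2 (1 / η) :=
    Real.logb_nonneg (by norm_num) (by rw [le_div_iff₀ hη0]; linarith)
  refine ⟨T, ?_, fun A δ hA hTr hδ hAδ => ?_⟩
  · have h1 : ((Nat.log 2 n : ℕ) : ℝ) ≤ Real.logb 2 n := Real.natLog_le_logb n 2
    have h2 : ((⌈Real.logb 2 (1 / η)⌉₊ : ℕ) : ℝ) ≤ Real.logb 2 (1 / η) + 1 :=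
      (Nat.ceil_lt_add_one hlogb0).le
    have h3 : Real.logb 2 n + Real.logb 2 (1 / η) = Real.logb 2 (n / η) := by
      rw [← Real.logb_mul (by positivity) (by positivity)]
      congr 1
      ring
    have h4 : 1 ≤ Real.logb 2 (n / η) := by
      rw [Real.le_logb_iff_rpow_le (by norm_num) (by positivity), Real.rpow_one,
        le_div_iff₀ hη0]
      nlinarith
    have h5 : Real.logb 2 (n / η) ≤ 1.45 * Real.log (n / η) := by
      have hl2 := Real.log_two_gt_d9
      have hlog : 0 ≤ Real.log (n / η) := by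
        apply Real.log_nonneg
        rw [le_div_iff₀ hη0]
        nlinarith
      unfold Real.logb
      rw [div_le_iff₀ (by linarith)]
      nlinarith
    have h6 : ((Nat.log 2 n + ⌈Real.logb 2 (1 / η)⌉₊ + 1 : ℕ) : ℝ)
        ≤ 5 * Real.log (n / η) := by
      push_cast
      linarith
    have h7 : (T.cost : ℝ) ≤ ((K * n * (Nat.log 2 n + ⌈Real.logb 2 (1 / η)⌉₊ + 1) ^ 8 : ℕ) : ℝ) := by
      exact_mod_cast hT1
    refine h7.trans ?_
    rw [Nat.cast_mul, Nat.cast_mul, Nat.cast_pow]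
    calc (K : ℝ) * n * ((Nat.log 2 n + ⌈Real.logb 2 (1 / η)⌉₊ + 1 : ℕ) : ℝ) ^ 8
        ≤ (K : ℝ) * n * (5 * Real.log (n / η)) ^ 8 := by gcongr
      _ ≤ ((K : ℝ) + 1) * n * (5 * Real.log (n / η)) ^ 8 := by gcongr; linarith
      _ = 5 ^ 8 * (K + 1) * n * Real.log (n / η) ^ 8 := by ring
  · have hJ : ‖A‖ ≤ 2 ^ ⌈Real.logb 2 (1 / η)⌉₊ * δ := by
      have h1 : 1 / η ≤ (2 : ℝ) ^ ⌈Real.logb 2 (1 / η)⌉₊ := by
        rw [← Real.rpow_natCast, ← Real.logb_le_iff_le_rpow (by norm_num) (by positivity)]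
        exact Nat.le_ceil _
      calc ‖A‖ = 1 / η * (η * ‖A‖) := by field_simp
        _ ≤ 2 ^ ⌈Real.logb 2 (1 / η)⌉₊ * δ := by gcongr
    obtain ⟨h1, h2⟩ := hG2 A δ hA hTr hδ hJ
    simp only [hT2 A δ]
    refine ⟨?_, ?_, fun hδ1 => ?_⟩
    · rw [Matrix.l2_opNorm_diagonal, pi_norm_le_iff_of_nonneg (by norm_num)]
      intro j
      rw [Complex.norm_real]
      exact h1 j
    · refine le_trans (le_of_eq ?_) h2
      field_simp
    · refine le_trans ?_ h2
      rw [div_pow, ← mul_div_assoc, div_le_div_iff₀ (by positivity) (by positivity)]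
      have h6 : δ ^ 11 ≤ δ := by
        calc δ ^ 11 ≤ δ ^ 1 := pow_le_pow_of_le_one hδ.le hδ1 (by norm_num)
          _ = δ := pow_one δ
      have h7 : 0 < (n : ℝ) ^ 11 := by positivity
      nlinarith

end Pool.Agent.Results.MP_26b317_lc.NearLinear
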